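import Pool.Agent.Helper92.NX92.Rec

/-!
# MP_e4a9a7_pr: couplings of two simple random walks with finitely many meetings

Two simple random walks on `Z^d`, `d ≥ 3`, started at any two points, can be coupled so that almost
surely there are only finitely many pairs of times `(m, n)` with `X m = Y n`, and so that at the same
time with positive probability there is no such pair at all (except `(0, 0)` if the starting points
agree). Such couplings exist exactly for `d ≥ 3`, and every coupling of initial segments of the two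
walks can be continued to one.
-/

set_option autoImplicit false

open MeasureTheory ProbabilityTheory
open scoped ENNReal

namespace Pool.Agent.Results.MP_e4a9a7_pr.FinitelyManyMeetings

/-- `X` is a simple random walk on the lattice `Fin d → ℤ` started at `x`, under the law `P`: the
increments are independent, and each of the `2 d` unit vectors is taken with probability
`1 / (2 d)`. -/
def IsSRW {d : ℕ} {Ω : Type} [MeasurableSpace Ω] (P : Measure Ω) (x : Fin d → ℤ)
    (X : ℕ → Ω → Fin d → ℤ) : Prop :=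
  (∀ n, Measurable (X n)) ∧ (∀ ω, X 0 ω = x) ∧
  iIndepFun (fun n ω => X (n + 1) ω - X n ω) P ∧
  ∀ n (i : Fin d), P {ω | X (n + 1) ω - X n ω = Pi.single i 1} = 1 / (2 * (d : ℝ≥0∞)) ∧
    P {ω | X (n + 1) ω - X n ω = Pi.single i (-1)} = 1 / (2 * (d : ℝ≥0∞))

/-- `X` and `Y` are a coupling, under the probability measure `P`, of two simple random walks started
at `x` and `y`. The joint law is arbitrary. -/
structure IsCoupling {d : ℕ} {Ω : Type} [MeasurableSpace Ω] (P : Measure Ω) (x y : Fin d → ℤ)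
    (X Y : ℕ → Ω → Fin d → ℤ) : Prop where
  prob : IsProbabilityMeasure P
  fst : IsSRW P x X
  snd : IsSRW P y Y

/-- The meetings: the pairs of times `(m, n)` for which `X m = Y n`. -/
def Meetings {d : ℕ} {Ω : Type} (X Y : ℕ → Ω → Fin d → ℤ) (ω : Ω) : Set (ℕ × ℕ) :=
  {p | X p.1 ω = Y p.2 ω}

/-- The paths (sets of visited sites) of the two walks do not intersect. -/
def Avoid {d : ℕ} {Ω : Type} (X Y : ℕ → Ω → Fin d → ℤ) (ω : Ω) : Prop :=
  Disjoint (Set.range fun n => X n ω) (Set.range fun m => Y m ω)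

open Pool.Agent.Helper92.NX92

lemma coupling_of_streams {d : ℕ} (hd : 0 < d) {Ω : Type} [MeasurableSpace Ω] {P : Measure Ω}
    (hP : IsProbabilityMeasure P) {ξ η : Ω → St d} (hξm : Measurable ξ) (hηm : Measurable η)
    (hξ : P.map ξ = PD d) (hη : P.map η = PD d) (x y : Fin d → ℤ) :
    IsCoupling P x y (fun n ω => x + Pool.Agent.Y571.NX.SD n (ξ ω))
      (fun n ω => y + Pool.Agent.Y571.NX.SD n (η ω)) :=
  ⟨hP, Pool.Agent.Y931.NX.isSRW_of_streamD hd hξm hξ x,
    Pool.Agent.Y931.NX.isSRW_of_streamD hd hηm hη y⟩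

/-- **Main theorem.**
1. For `d ≥ 3` and all `x`, `y` (equal or not) there is one coupling of the simple random walks from
`x` and `y` for which almost surely there are only finitely many meetings and for which with positive
probability there is no meeting except possibly at the starting times; so if `x ≠ y` the paths do
not intersect with positive probability.
2. Such couplings are everywhere: for `d ≥ 3` any coupling and any time `N` there is a coupling with
almost surely finitely many meetings and with the same joint law of the two walks up to time `N`.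
3. In any dimension no coupling makes the paths avoid each other almost surely.
4. In dimensions one and two in every coupling both walks visit every site infinitely often.
5. So couplings with almost surely finitely many meetings exist exactly for `d ≥ 3`, and couplings
for which the paths avoid each other with positive probability exactly for `d ≥ 3` and `x ≠ y`. -/
theorem result :
    (∀ (d : ℕ), 3 ≤ d → ∀ x y : Fin d → ℤ,
      ∃ (Ω : Type) (_ : MeasurableSpace Ω) (P : Measure Ω) (X Y : ℕ → Ω → Fin d → ℤ),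
        IsCoupling P x y X Y ∧ (∀ᵐ ω ∂P, (Meetings X Y ω).Finite) ∧
        0 < P {ω | Meetings X Y ω ⊆ {(0, 0)}} ∧ (x ≠ y → 0 < P {ω | Avoid X Y ω})) ∧
    (∀ (d : ℕ), 3 ≤ d → ∀ (x y : Fin d → ℤ) (Ω : Type) [MeasurableSpace Ω] (P : Measure Ω)
      (X Y : ℕ → Ω → Fin d → ℤ), IsCoupling P x y X Y → ∀ N : ℕ,
      ∃ (Ω' : Type) (_ : MeasurableSpace Ω') (P' : Measure Ω') (X' Y' : ℕ → Ω' → Fin d → ℤ),
        IsCoupling P' x y X' Y' ∧ (∀ᵐ ω ∂P', (Meetings X' Y' ω).Finite) ∧
        P'.map (fun ω (k : Fin (N + 1)) => (X' k ω, Y' k ω)) =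
          P.map (fun ω (k : Fin (N + 1)) => (X k ω, Y k ω))) ∧
    (∀ (d : ℕ) (x y : Fin d → ℤ) (Ω : Type) [MeasurableSpace Ω] (P : Measure Ω)
      (X Y : ℕ → Ω → Fin d → ℤ), IsCoupling P x y X Y → P {ω | Avoid X Y ω} < 1) ∧
    (∀ (d : ℕ), 1 ≤ d → d ≤ 2 → ∀ (x y : Fin d → ℤ) (Ω : Type) [MeasurableSpace Ω] (P : Measure Ω)
      (X Y : ℕ → Ω → Fin d → ℤ), IsCoupling P x y X Y →
      ∀ᵐ ω ∂P, ∀ z, {m | X m ω = z}.Infinite ∧ {n | Y n ω = z}.Infinite) ∧
    (∀ (d : ℕ) (x y : Fin d → ℤ),
      ((∃ (Ω : Type) (_ : MeasurableSpace Ω) (P : Measure Ω) (X Y : ℕ → Ω → Fin d → ℤ),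
        IsCoupling P x y X Y ∧ ∀ᵐ ω ∂P, (Meetings X Y ω).Finite) ↔ 3 ≤ d) ∧
      ((∃ (Ω : Type) (_ : MeasurableSpace Ω) (P : Measure Ω) (X Y : ℕ → Ω → Fin d → ℤ),
        IsCoupling P x y X Y ∧ 0 < P {ω | Avoid X Y ω}) ↔ 3 ≤ d ∧ x ≠ y)) := by
  have A1 : ∀ (d : ℕ), 3 ≤ d → ∀ x y : Fin d → ℤ,
      ∃ (Ω : Type) (_ : MeasurableSpace Ω) (P : Measure Ω) (X Y : ℕ → Ω → Fin d → ℤ),
        IsCoupling P x y X Y ∧ (∀ᵐ ω ∂P, (Meetings X Y ω).Finite) ∧
        0 < P {ω | Meetings X Y ω ⊆ {(0, 0)}} ∧ (x ≠ y → 0 < P {ω | Avoid X Y ω}) := by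
    intro d hd x y
    obtain ⟨μ, m1, m2, m3, m4, m5⟩ := streams hd x y
    have h6 : 0 < μ {ω : St d × St d |
        Meetings (fun n (ω : St d × St d) => x + Pool.Agent.Y571.NX.SD n ω.1)
        (fun n ω => y + Pool.Agent.Y571.NX.SD n ω.2) ω ⊆ {(0, 0)}} := by
      refine lt_of_lt_of_le (pos_iff_ne_zero.2 m5) (measure_mono ?_)
      intro ω hω
      rintro ⟨m, n⟩ hmn
      obtain ⟨h1, h2⟩ := hω m n hmn
      rw [Set.mem_singleton_iff, h1, h2]
    refine ⟨St d × St d, inferInstance, μ, fun n ω => x + Pool.Agent.Y571.NX.SD n ω.1,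
      fun n ω => y + Pool.Agent.Y571.NX.SD n ω.2,
      coupling_of_streams (by omega) m1 measurable_fst measurable_snd m2 m3 x y, ?_, h6, ?_⟩
    · have h7 : ∀ᵐ ω ∂μ, ω ∈ RR x y := m4
      filter_upwards [h7] with ω hω
      exact RR_finite x y ω hω
    · intro hxy
      refine lt_of_lt_of_le h6 (measure_mono ?_)
      intro ω hω
      refine Set.disjoint_left.2 ?_
      rintro z ⟨m, rfl⟩ ⟨n, hn⟩
      have h8 : (m, n) ∈ ({(0, 0)} : Set (ℕ × ℕ)) := hω hn.symm
      rw [Set.mem_singleton_iff, Prod.mk.injEq] at h8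
      obtain ⟨rfl, rfl⟩ := h8
      simp only [SD_zero, add_zero] at hn
      exact hxy hn.symm
  have A3 : ∀ (d : ℕ) (x y : Fin d → ℤ) (Ω : Type) [MeasurableSpace Ω] (P : Measure Ω)
      (X Y : ℕ → Ω → Fin d → ℤ), IsCoupling P x y X Y → P {ω | Avoid X Y ω} < 1 := by
    intro d x y Ω _ P X Y h
    have hP := h.prob
    rcases Nat.eq_zero_or_pos d with h0 | h0
    · subst h0
      have e : {ω | Avoid X Y ω} = ∅ := by
        rw [Set.eq_empty_iff_forall_notMem]
        intro ω hω
        exact Set.disjoint_left.1 hω ⟨0, rfl⟩ ⟨0, Subsingleton.elim _ _⟩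
      rw [e, measure_empty]
      exact one_pos
    · have h1 := srw_hit h0 h.fst y
      have hm : MeasurableSet {ω | ∃ n, X n ω = y} := by
        have e : {ω | ∃ n, X n ω = y} = ⋃ n, X n ⁻¹' {y} := by
          ext ω
          simp
        rw [e]
        exact MeasurableSet.iUnion fun n => h.fst.1 n (MeasurableSet.singleton y)
      have h2 : P {ω | Avoid X Y ω} ≤ P {ω | ∃ n, X n ω = y}ᶜ := by
        refine measure_mono ?_
        intro ω hω hc
        obtain ⟨n, hn⟩ := hc
        exact Set.disjoint_left.1 hω ⟨n, hn⟩ ⟨0, h.snd.2.1 ω⟩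
      refine lt_of_le_of_lt h2 ?_
      rw [prob_compl_eq_one_sub hm]
      exact ENNReal.sub_lt_self ENNReal.one_ne_top one_ne_zero h1
  have A4 : ∀ (d : ℕ), 1 ≤ d → d ≤ 2 → ∀ (x y : Fin d → ℤ) (Ω : Type) [MeasurableSpace Ω]
      (P : Measure Ω) (X Y : ℕ → Ω → Fin d → ℤ), IsCoupling P x y X Y →
      ∀ᵐ ω ∂P, ∀ z, {m | X m ω = z}.Infinite ∧ {n | Y n ω = z}.Infinite := by
    intro d hd hd2 x y Ω _ P X Y h
    have hP := h.prob
    filter_upwards [srw_io hd hd2 h.fst, srw_io hd hd2 h.snd] with ω h1 h2 z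
    exact ⟨h1 z, h2 z⟩
  refine ⟨A1, ?_, A3, A4, ?_⟩
  · intro d hd x y Ω _ P X Y h N
    have hd0 : 0 < d := by omega
    have hP := h.prob
    obtain ⟨ξ0, hξm0, hξ0, hξX⟩ := srw_stream hd0 h.fst
    obtain ⟨η0, hηm0, hη0, hηY⟩ := srw_stream hd0 h.snd
    obtain ⟨F, hF⟩ : ∃ F : Ω → St d × St d, F = fun ω => (ξ0 ω, η0 ω) := ⟨_, rfl⟩
    have hFm : Measurable F := by
      rw [hF]
      exact hξm0.prodMk hηm0
    have h1 : (P.map F).map Prod.fst = PD d := by
      rw [Measure.map_map measurable_fst hFm, ← hξ0, hF]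
      rfl
    have h2 : (P.map F).map Prod.snd = PD d := by
      rw [Measure.map_map measurable_snd hFm, ← hη0, hF]
      rfl
    have hFp : IsProbabilityMeasure (P.map F) := Measure.isProbabilityMeasure_map hFm.aemeasurable
    obtain ⟨μ, ξ, η, c1, c2, c3, c4, c5, c6, c7, c8, c9⟩ := continuation hd x y (P.map F) h1 h2 N
    obtain ⟨G, hG⟩ : ∃ G : St d × St d → Fin (N + 1) → (Fin d → ℤ) × (Fin d → ℤ),
        G = fun (ω : St d × St d) (k : Fin (N + 1)) =>
          (x + Pool.Agent.Y571.NX.SD k ω.1, y + Pool.Agent.Y571.NX.SD k ω.2) := ⟨_, rfl⟩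
    have hGm : Measurable G := by
      rw [hG]
      exact measurable_pi_lambda _ fun k =>
        (((Pool.Agent.Y931.NX.meas_SD k).comp measurable_fst).const_add x).prodMk
          (((Pool.Agent.Y931.NX.meas_SD k).comp measurable_snd).const_add y)
    refine ⟨_, inferInstance, μ, fun n ω => x + Pool.Agent.Y571.NX.SD n (ξ ω),
      fun n ω => y + Pool.Agent.Y571.NX.SD n (η ω),
      coupling_of_streams hd0 c1 c2 c3 c5 c6 x y, ?_, ?_⟩
    · filter_upwards [c7] with ω hω
      exact RR_finite x y _ hω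
    · have e1 : (fun ω (k : Fin (N + 1)) => (x + Pool.Agent.Y571.NX.SD k (ξ ω),
          y + Pool.Agent.Y571.NX.SD k (η ω))) = G ∘ Prod.fst := by
        funext ω k
        rw [Function.comp_apply, hG]
        simp only
        rw [c8 ω k (by omega), c9 ω k (by omega)]
      rw [e1, ← Measure.map_map hGm measurable_fst, c4, Measure.map_map hGm hFm]
      refine Measure.map_congr ?_
      filter_upwards [hξX, hηY] with ω h3 h4
      funext k
      rw [Function.comp_apply, hG, hF]
      simp only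
      rw [← h3, ← h4]
  · intro d x y
    constructor
    · constructor
      · rintro ⟨Ω, _, P, X, Y, h, hfin⟩
        by_contra hd
        have hP := h.prob
        have hbad : ∀ᵐ ω ∂P, False := by
          rcases Nat.eq_zero_or_pos d with h0 | h0
          · subst h0
            filter_upwards [hfin] with ω h1
            have e : Meetings X Y ω = Set.univ := by
              rw [Set.eq_univ_iff_forall]
              exact fun p => Subsingleton.elim _ _
            rw [e] at h1
            exact Set.infinite_univ h1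
          · filter_upwards [hfin, A4 d h0 (by omega) x y Ω P X Y h] with ω h1 h2
            refine (h2 x).2 ((h1.image Prod.snd).subset ?_)
            intro n hn
            exact ⟨(0, n), (h.fst.2.1 ω).trans (Set.mem_ofPred_eq.mp hn).symm, rfl⟩
        have h3 : P Set.univ = 0 := by
          rw [ae_iff] at hbad
          simpa only [not_false_eq_true, Set.ofPred_true] using hbad
        rw [measure_univ] at h3
        exact one_ne_zero h3
      · intro hd
        obtain ⟨Ω, mΩ, P, X, Y, h1, h2, _⟩ := A1 d hd x y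
        exact ⟨Ω, mΩ, P, X, Y, h1, h2⟩
    · constructor
      · rintro ⟨Ω, mΩ, P, X, Y, h, hpos⟩
        have hP := h.prob
        exact (Pool.Agent.Results.MP_e4a9a7_pr.AllPairsAllDimensions.result.1 d x y).1
          ⟨Ω, mΩ, P, hP, X, Y, h.fst, h.snd, hpos⟩
      · rintro ⟨hd, hxy⟩
        obtain ⟨Ω, mΩ, P, X, Y, h1, _, _, h4⟩ := A1 d hd x y
        exact ⟨Ω, mΩ, P, X, Y, h1, h4 hxy⟩

end Pool.Agent.Results.MP_e4a9a7_pr.FinitelyManyMeetings
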